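import Pool.Agent.helper55.RI.SpecG

/-!
# Project rg (MP_2bd605_lc), module G5: the one-one reduction for a general target predicate
-/

set_option autoImplicit false

namespace Pool.Agent.RI

open Pool.Agent.helper62 Prog Function Pool.Agent.helper81.PL

theorem G5_DD {A : Set W} {T : ℕ → W → Prop} {i : ℕ} (h : ∀ w, w ∈ DST A T ↔ E i w ∈ A) (c : ℕ) (x : W) :
    DDT A T i c x ↔ uu i c x ∈ A := by
  have h1 := h (pre i (pre c x))
  unfold uu
  rw [← h1]
  constructor
  · intro hd
    exact ⟨i, c, x, rfl, hd⟩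
  · rintro ⟨i', c', x', he, hd⟩
    obtain ⟨e1, e2⟩ := K3.2.1 _ _ _ _ he
    obtain ⟨e3, e4⟩ := K3.2.1 _ _ _ _ e2
    subst e1
    subst e3
    subst e4
    exact hd

/-- There is a parameter with a long value. -/
theorem G5_long {A : Set W} {P : ℕ → W → Prop} {i : ℕ}
    (h : ∀ w, w ∈ DST A P ↔ E i w ∈ A) (x : W) : ∃ c ≤ 2 * x.length, lng i c x = true := by
  classical
  have hfin : {a : W | a ∈ A ∧ 2 ^ a.length ≤ x.length}.Finite := by
    refine (List.finite_length_le Bool x.length).subset ?_
    rintro a ⟨-, ha⟩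
    change a.length ≤ x.length
    have := Nat.lt_two_pow_self (n := a.length)
    omega
  set T := hfin.toFinset with hT
  have hmem : ∀ a, a ∈ T ↔ a ∈ A ∧ 2 ^ a.length ≤ x.length := by
    intro a
    rw [hT, Set.Finite.mem_toFinset]
    rfl
  refine ⟨T.card, D1 _ T fun a ha => ((hmem a).mp ha).2, ?_⟩
  by_contra hl
  have hl : lng i T.card x = false := by
    rcases Bool.eq_false_or_eq_true (lng i T.card x) with h | h
    · exact absurd h hl
    · exact h
  have hu : 2 ^ (uu i T.card x).length ≤ x.length := by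
    unfold lng at hl
    rw [decide_eq_false_iff_not] at hl
    omega
  have hDD := G5_DD h T.card x
  by_cases huA : uu i T.card x ∈ A
  · rcases hDD.mpr huA with ⟨-, ℓ, h1, h2, h3, h4⟩ | ⟨h1, -⟩
    · have hsub : ℓ.toFinset ⊆ T := by
        intro a ha
        exact (hmem a).mpr (h3 a (List.mem_toFinset.mp ha))
      have hcard : T.card ≤ ℓ.toFinset.card := by
        rw [List.toFinset_card_of_nodup h1, h2]
      have heq := Finset.eq_of_subset_of_card_le hsub hcard
      have hu' : uu i T.card x ∈ ℓ := by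
        rw [← List.mem_toFinset, heq]
        exact (hmem _).mpr ⟨huA, hu⟩
      exact h4 hu'
    · rw [hl] at h1
      exact absurd h1 (by decide)
  · refine huA (hDD.mp (Or.inl ⟨hl, T.toList, T.nodup_toList, Finset.length_toList T, ?_, ?_⟩))
    · intro a ha
      exact (hmem a).mp (Finset.mem_toList.mp ha)
    · intro hm
      exact huA ((hmem _).mp (Finset.mem_toList.mp hm)).1

theorem G5_cm {A : Set W} {T : ℕ → W → Prop} {i : ℕ}
    (h : ∀ w, w ∈ DST A T ↔ E i w ∈ A) (x : W) : lng i (cm i x) x = true := by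
  obtain ⟨c, hc, hl⟩ := G5_long h x
  unfold cm
  rcases hf : (List.range (2 * x.length + 1)).find? (fun c => lng i c x) with _ | c'
  · exfalso
    rw [List.find?_eq_none] at hf
    exact hf c (List.mem_range.mpr (by omega)) hl
  · exact List.find?_some (p := fun c => lng i c x) hf

theorem G5 : G5_stmt := by
  classical
  intro A T i h
  have hl := G5_cm h
  have hG : ∀ x, GG i x ∈ A ↔ (∀ x' : W, enc x' < enc x → GG i x' ≠ GG i x) ∧
      (T i x ∨ ∃ x' : W, enc x < enc x' ∧ GG i x' = GG i x) := by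
    intro x
    have h1 : uu i (cm i x) x ∈ A ↔ _ := (G5_DD h (cm i x) x).symm
    change uu i (cm i x) x ∈ A ↔ _
    rw [h1]
    unfold DDT
    constructor
    · rintro (⟨h2, -⟩ | ⟨-, h2⟩)
      · rw [hl x] at h2
        exact absurd h2 (by decide)
      · exact h2
    · intro h2
      exact Or.inr ⟨hl x, h2⟩
  have hinj : Injective (GG i) := by
    intro x1 x2 h12
    by_contra hne
    have hex : ∃ n, ∃ y : W, enc y = n ∧ GG i y = GG i x1 := ⟨_, x1, rfl, rfl⟩
    obtain ⟨y0, hy0, hv0⟩ := Nat.find_spec hex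
    have hmin : ∀ y, GG i y = GG i x1 → enc y0 ≤ enc y := by
      intro y hy
      rw [hy0]
      exact Nat.find_min' hex ⟨y, rfl, hy⟩
    obtain ⟨y1, hy1, hv1⟩ : ∃ y1, y1 ≠ y0 ∧ GG i y1 = GG i x1 := by
      by_cases e : x1 = y0
      · refine ⟨x2, fun e2 => hne (e.trans e2.symm), h12.symm⟩
      · exact ⟨x1, e, rfl⟩
    have hlt : enc y0 < enc y1 := by
      refine lt_of_le_of_ne (hmin y1 hv1) fun e => hy1 (Encodable.encode_injective e).symm
    have hA0 : GG i y0 ∈ A := by
      refine (hG y0).mpr ⟨fun x' hlt' he => ?_, Or.inr ⟨y1, hlt, by rw [hv1, hv0]⟩⟩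
      have := hmin x' (he.trans hv0)
      omega
    have hA1 : GG i y1 ∈ A := by
      rw [hv1, ← hv0]
      exact hA0
    have h3 := ((hG y1).mp hA1).1 y0 hlt
    rw [hv0, hv1] at h3
    exact h3 rfl
  refine ⟨hinj, fun x => ?_, fun x => ?_⟩
  · rw [hG x]
    constructor
    · intro hx
      refine ⟨fun x' hlt he => ?_, Or.inl hx⟩
      have := hinj he
      rw [this] at hlt
      omega
    · rintro ⟨-, hx | ⟨x', hlt, he⟩⟩
      · exact hx
      · have := hinj he
        rw [this] at hlt
        omega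
  · have h4 := hl x
    unfold lng at h4
    exact of_decide_eq_true h4

end Pool.Agent.RI
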