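import Pool.Agent.helper55.RI.SpecG

/-!
# Project rg (MP_2bd605_lc), module G8: the cylinder is complete
-/

set_option autoImplicit false

namespace Pool.Agent.RI

open Pool.Agent.helper62 Prog Function Pool.Agent.helper81.PL

theorem G8 (hG1 : G1_stmt) : G8_stmt := by
  intro 𝒞 A hG hA
  obtain ⟨h1, h2, h3, h4, h5, h6, h7⟩ := hG1
  have hpt := uF1.1
  have hcomp : Computable fs := uF1.2.2.1 fs ((hpt fs).mpr h1)
  refine ⟨⟨?_, ?_⟩, ?_⟩
  · have h8 := hG.tt A hA.1 (fun w => [[fs w]]) ?_
    · have : {x : W | ∃ ℓ ∈ [[fs x]], ∀ a ∈ ℓ, a ∈ A} = cyl A := by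
        ext w
        simp [cyl]
      rw [this] at h8
      exact h8
    · have h9 : Computable (fun w : W => [fs w]) :=
        Computable.list_cons.comp hcomp (Computable.const [])
      exact Computable.list_cons.comp h9 (Computable.const [])
  · intro B hB
    obtain ⟨f, hf, hfA⟩ := hA.2 B hB
    have hfp : PT f := (hpt f).mp hf
    refine ⟨fun x => pr (f x) [], (hpt _).mpr ?_, fun x => ?_⟩
    · exact h3.comp (PT.pair hfp (PT.const []))
    · change x ∈ B ↔ fs (pr (f x) []) ∈ A
      rw [h4]
      exact hfA x
  · -- the set of all words is r.e., hence in the class, hence reducible to `A`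
    have hre : RE (Set.univ : Set W) := by
      have := (ComputablePred.computable_iff.mpr
        ⟨fun _ : W => true, Computable.const true, funext fun _ => by simp⟩ :
        ComputablePred (fun x : W => x ∈ (Set.univ : Set W)))
      exact this.to_re
    obtain ⟨f, -, hfA⟩ := hA.2 _ (hG.re _ hre)
    exact ⟨f [], (hfA []).mp trivial⟩

end Pool.Agent.RI
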