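import Pool.Agent.helper55.RI.SpecG
import Pool.Agent.helper55.RI.G1

/-!
# Project rg (MP_2bd605_lc), module S3: complete sets in the arithmetical classes
-/

set_option autoImplicit false

namespace Pool.Agent.RI

open Pool.Agent.helper62 Prog Function Pool.Agent.helper81.PL

theorem S3_comp {f : W → W} (hf : PT f) : Computable f := uF1.2.2.1 f ((uF1.1 f).mpr hf)

theorem S3_inN : Computable inN := by
  have hN : PT inN := INW1
  have h1 : PT (fun w : W => List.replicate (inN w) true) := by fun_prop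
  have h2 := R5.2.1.comp (S3_comp h1)
  refine h2.of_eq fun w => ?_
  simp

theorem S3_eq {f g : W → W} (hf : Computable f) (hg : Computable g) :
    Computable (fun w => decide (f w = g w)) := by
  have h := (Primrec.eq (α := W)).decide.to_comp
  exact h.comp hf hg

/-- the truth table -/
def S3_F (v : W) : List (List W) :=
  bif decide (pre (inN (fs v)) ((fs v).drop (inN (fs v) + 1)) = fs v) then
    [[E (inN (fs v)) (pr ((fs v).drop (inN (fs v) + 1)) (sn v))]] else [[]]

/-- parsing -/
def S3_a (v : W) : ℕ := inN (fs v)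

/-- parsing -/
def S3_b (v : W) : W := (fs v).drop (inN (fs v) + 1)

/-- parsing -/
def S3_c (v : W) : W := pr (S3_b v) (sn v)

theorem S3_ac : Computable S3_a := S3_inN.comp (S3_comp G1.1)

theorem S3_bp : PT S3_b := by
  have hN : PT inN := INW1
  have hfs : PT fs := G1.1
  unfold S3_b
  fun_prop

theorem S3_cp : PT S3_c := G1.2.2.1.comp (S3_bp.pair G1.2.1)

theorem S3_Ec {a : W → ℕ} {b : W → W} (ha : Computable a) (hb : Computable b) :
    Computable (fun v => E (a v) (b v)) := by
  have c := Computable.comp X8 (ha.pair hb)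
  exact c

theorem S3_prec {a : W → ℕ} {b : W → W} (ha : Computable a) (hb : Computable b) :
    Computable (fun v => pre (a v) (b v)) := by
  have c := Computable.comp R5.1 (ha.pair hb)
  exact c

theorem S3_sing {α : Type} [Primcodable α] {a : W → α} (ha : Computable a) :
    Computable (fun v => [a v]) := Computable.list_cons.comp ha (Computable.const [])

theorem S3_Fe (v : W) : S3_F v = bif decide (pre (S3_a v) (S3_b v) = fs v) then
    [[E (S3_a v) (S3_c v)]] else [[]] := rfl

theorem S3_Fc : Computable S3_F := by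
  refine Computable.of_eq ?_ (fun v => (S3_Fe v).symm)
  exact Computable.cond (S3_eq (S3_prec S3_ac (S3_comp S3_bp)) (S3_comp G1.1))
    (S3_sing (S3_sing (S3_Ec S3_ac (S3_comp S3_cp)))) (Computable.const [[]])

/-- the complete set of the next class -/
def S3_C (C : Set W) : Set W := {w | ∃ (i : ℕ) (x : W), w = pre i x ∧ ∃ y : W, E i (pr x y) ∉ C}

theorem S3 : S3_stmt := by
  intro n hG hC
  obtain ⟨C, hC1, hC2⟩ := hC
  refine ⟨S3_C C, ?_, ?_⟩
  · refine ⟨_, hG.tt C hC1 S3_F S3_Fc, fun w => ?_⟩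
    have hw : ∀ y : W, pr w y ∉ {x : W | ∃ ℓ ∈ S3_F x, ∀ a ∈ ℓ, a ∈ C} ↔
        (pre (inN w) (w.drop (inN w + 1)) = w ∧ E (inN w) (pr (w.drop (inN w + 1)) y) ∉ C) := by
      intro y
      rw [Set.mem_ofPred_eq]
      unfold S3_F
      rw [G1.2.2.2.1, G1.2.2.2.2.1]
      by_cases h : pre (inN w) (w.drop (inN w + 1)) = w
      · simp [h]
      · simp [h]
    simp only [hw]
    constructor
    · rintro ⟨i, x, rfl, y, hy⟩
      refine ⟨y, ?_⟩
      rw [G1_inN, G1_drop]
      exact ⟨rfl, hy⟩
    · rintro ⟨y, h1, h2⟩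
      exact ⟨_, _, h1.symm, y, h2⟩
  · rintro A ⟨B, hB, hA⟩
    obtain ⟨f, hf, hfB⟩ := hC2 B hB
    obtain ⟨i, hi⟩ := uX9.2 f (uX5 f hf)
    refine ⟨fun x => pre i x, (uF1.1 _).mpr (K3.1.comp (PT.pair (PT.const i) PT.id)), fun x => ?_⟩
    rw [hA x]
    have h1 : ∀ y : W, pr x y ∉ B ↔ E i (pr x y) ∉ C := by
      intro y
      rw [hfB, hi]
    simp only [h1]
    constructor
    · rintro ⟨y, hy⟩
      exact ⟨i, x, rfl, y, hy⟩
    · rintro ⟨i', x', he, y, hy⟩
      obtain ⟨e1, e2⟩ := K3.2.1 _ _ _ _ he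
      subst e1
      subst e2
      exact ⟨y, hy⟩

end Pool.Agent.RI
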