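import Pool.Agent.helper55.RI.SpecV
import Pool.Agent.helper55.RI.G1

/-!
# Project rg (MP_2bd605_lc), module V9: a complete set for exponential time
-/

set_option autoImplicit false

namespace Pool.Agent.RI

open Pool.Agent.helper62 Prog Function Pool.Agent.helper81.PL

theorem V9_pr {x y x' y' : W} (h : pr x y = pr x' y') : x = x' ∧ y = y' := by
  constructor
  · rw [← G1.2.2.2.1 x y, h, G1.2.2.2.1]
  · rw [← G1.2.2.2.2.1 x y, h, G1.2.2.2.2.1]

theorem V9_pow (d : ℕ) : PT (fun x : W => (x.length + 2) ^ d) := by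
  induction d with
  | zero =>
    simp only [pow_zero]
    fun_prop
  | succ d ih =>
    simp only [pow_succ]
    fun_prop

/-- the padded input -/
def V9_q (w : W) (N : ℕ) : W :=
  pr (fs (sn w)) (List.replicate (min (2 ^ (sn (sn w)).length) N) true)

/-- the decision procedure -/
def V9_R (t : W × ℕ) : Bool :=
  (eqb (pr (fs t.1) (pr (fs (sn t.1)) (sn (sn t.1)))) t.1 &&
    eqb (sn (sn t.1)) (List.replicate (sn (sn t.1)).length true)) &&
    eqb (EWc (fs t.1) (V9_q t.1 t.2) t.2) [true]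

theorem V9_Rp (hV4 : V4_stmt) (hV5 : V5_stmt) : PT V9_R := by
  have hfs : PT fs := G1.1
  have hsn : PT sn := G1.2.1
  have hpr {α : Type} [Rep α] {f g : α → W} (hf : PT f) (hg : PT g) : PT (fun a => pr (f a) (g a)) := by
    have c := PT.comp G1.2.2.1 (hf.pair hg)
    exact c
  have h1 : PT (fun t : W × ℕ => fs t.1) := hfs.comp pt_fst
  have h2 : PT (fun t : W × ℕ => fs (sn t.1)) := hfs.comp (hsn.comp pt_fst)
  have h3 : PT (fun t : W × ℕ => sn (sn t.1)) := hsn.comp (hsn.comp pt_fst)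
  have h4 : PT (fun t : W × ℕ => min (2 ^ (sn (sn t.1)).length) t.2) := by
    have h5 : PT (fun t : W × ℕ => (2, (sn (sn t.1)).length, t.2)) := by fun_prop
    have c := PT.comp hV5.1 h5
    exact c
  have h6 : PT (fun t : W × ℕ => List.replicate (min (2 ^ (sn (sn t.1)).length) t.2) true) := by
    fun_prop
  have h7 : PT (fun t : W × ℕ => V9_q t.1 t.2) := hpr h2 h6
  have h8 : PT (fun t : W × ℕ => EWc (fs t.1) (V9_q t.1 t.2) t.2) := by
    have h9 : PT (fun t : W × ℕ => (fs t.1, V9_q t.1 t.2, t.2)) := by fun_prop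
    have c := PT.comp hV4.1 h9
    exact c
  have h10 : PT (fun t : W × ℕ => pr (fs t.1) (pr (fs (sn t.1)) (sn (sn t.1)))) := hpr h1 (hpr h2 h3)
  unfold V9_R
  fun_prop

theorem V9_le (p x : W) (j n : ℕ) (hn : n = 2 * p.length + 1 + (2 * x.length + 1 + j)) :
    (2 * x.length + 1 + 2 ^ j + 2) ^ p.length ≤ 2 ^ ((n + 2) ^ 4) := by
  have h1 : 2 * x.length + 1 + 2 ^ j + 2 ≤ 2 ^ (n + 1) := by
    have h2 : 2 * x.length + 2 < 2 ^ (2 * x.length + 2) := Nat.lt_two_pow_self
    have h3 : 2 ^ (2 * x.length + 2) ≤ 2 ^ n := Nat.pow_le_pow_right (by norm_num) (by omega)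
    have h4 : 2 ^ j ≤ 2 ^ n := Nat.pow_le_pow_right (by norm_num) (by omega)
    rw [pow_succ]
    omega
  calc (2 * x.length + 1 + 2 ^ j + 2) ^ p.length ≤ (2 ^ (n + 1)) ^ p.length := Nat.pow_le_pow_left h1 _
    _ = 2 ^ ((n + 1) * p.length) := by rw [pow_mul]
    _ ≤ 2 ^ ((n + 2) ^ 4) := by
      refine Nat.pow_le_pow_right (by norm_num) ?_
      have h5 : p.length ≤ n + 2 := by omega
      calc (n + 1) * p.length ≤ (n + 2) * (n + 2) := Nat.mul_le_mul (by omega) h5
        _ = (n + 2) ^ 2 := by ring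
        _ ≤ (n + 2) ^ 4 := Nat.pow_le_pow_right (by omega) (by norm_num)

theorem V9_mem (hV4 : V4_stmt) (w : W) : w ∈ UE ↔ V9_R (w, ck 4 w) = true := by
  have hlen := G1.2.2.2.2.2.2
  have key : ∀ (p x : W) (j : ℕ), w = pr p (pr x (List.replicate j true)) →
      EWc p (pr x (List.replicate (min (2 ^ j) (ck 4 w)) true)) (ck 4 w) =
        EW p (pr x (List.replicate (2 ^ j) true)) := by
    intro p x j hw
    have hn : w.length = 2 * p.length + 1 + (2 * x.length + 1 + j) := by
      rw [hw, hlen, hlen, List.length_replicate]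
    have h1 : 2 ^ j ≤ ck 4 w := by
      unfold ck
      refine Nat.pow_le_pow_right (by norm_num) ?_
      have : w.length + 2 ≤ (w.length + 2) ^ 4 := Nat.le_self_pow (by norm_num) _
      omega
    rw [min_eq_left h1]
    refine hV4.2.1 _ _ _ ?_
    rw [hlen, List.length_replicate]
    exact V9_le p x j _ hn
  unfold V9_R
  simp only [Bool.and_eq_true, eqb, decide_eq_true_eq]
  constructor
  · rintro ⟨p, x, j, hw, hE⟩
    have e1 : fs w = p := by rw [hw, G1.2.2.2.1]
    have e2 : fs (sn w) = x := by rw [hw, G1.2.2.2.2.1, G1.2.2.2.1]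
    have e3 : sn (sn w) = List.replicate j true := by rw [hw, G1.2.2.2.2.1, G1.2.2.2.2.1]
    unfold V9_q
    rw [e1, e2, e3, List.length_replicate]
    refine ⟨⟨hw.symm, rfl⟩, ?_⟩
    rw [key p x j hw]
    exact hE
  · rintro ⟨⟨h1, h2⟩, h3⟩
    refine ⟨fs w, fs (sn w), (sn (sn w)).length, ?_, ?_⟩
    · rw [← h2]
      exact h1.symm
    · rw [← key (fs w) (fs (sn w)) (sn (sn w)).length (by rw [← h2]; exact h1.symm)]
      exact h3

theorem V9 (hV4 : V4_stmt) (hV5 : V5_stmt) : V9_stmt := by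
  refine ⟨⟨V9_R, 4, V9_Rp hV4 hV5, V9_mem hV4⟩, ?_⟩
  rintro B ⟨r, d, hr, hB⟩
  have hfs : PT fs := G1.1
  have hsn : PT sn := G1.2.1
  have h1 : PT (fun v : W => [r (fs v, (sn v).length)]) := by fun_prop
  obtain ⟨p, hp⟩ := hV4.2.2.2.1 _ h1
  have hpow := V9_pow d
  have h2 : PT (fun x : W => List.replicate ((x.length + 2) ^ d) true) := by fun_prop
  have h3 : PT (fun x : W => pr x (List.replicate ((x.length + 2) ^ d) true)) := by
    have c := PT.comp G1.2.2.1 (PT.pair (PT.id (α := W)) h2)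
    exact c
  refine ⟨fun x => pr p (pr x (List.replicate ((x.length + 2) ^ d) true)), ?_, fun x => ?_⟩
  · have c := PT.comp G1.2.2.1 (PT.pair (PT.const (α := W) p) h3)
    exact c
  · rw [hB]
    have h4 : EW p (pr x (List.replicate (2 ^ ((x.length + 2) ^ d)) true)) = [r (x, ck d x)] := by
      rw [hp]
      simp only [G1.2.2.2.1, G1.2.2.2.2.1, List.length_replicate]
      rfl
    constructor
    · intro h
      refine ⟨p, x, (x.length + 2) ^ d, rfl, ?_⟩
      rw [h4, h]
    · rintro ⟨p', x', j, he, hE⟩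
      obtain ⟨e1, e2⟩ := V9_pr he
      obtain ⟨e3, e4⟩ := V9_pr e2
      have e5 := congrArg List.length e4
      rw [List.length_replicate, List.length_replicate] at e5
      subst e1
      subst e3
      subst e5
      rw [h4] at hE
      simpa using hE

end Pool.Agent.RI
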